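import Pool.Agent.H466.HE.SB
import Pool.Agent.H407.HD.Fin

/-!
# HE-OUT: few zeros of the backward heat flow outside the strip
-/

set_option autoImplicit false

namespace Pool.Agent.H181.HE

open Complex MeasureTheory Set Filter Topology
open scoped ComplexConjugate
open Pool.Agent.H466.HF Pool.Agent.H466.LD Pool.Agent.H466.HP Pool.Agent.H466.HN
open Pool.Agent.H466.HD Pool.Agent.H466.HE
open Pool.Agent.Helper242.KK (Ph_even)
open Pool.Agent.H407.HD (geo lev sum_lev lev_nonneg reg_mono largest)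

/-- the symmetry of the heat flow -/
theorem sym (lam : ℝ) (z : ℂ) : LL gk lam (-conj z) = conj (LL gk lam z) := by
  unfold LL
  rw [← integral_conj,
    ← integral_neg_eq_self (fun u : ℝ => conj (gk u * cexp ((lam : ℂ) * (u : ℂ) ^ 2 + z * u)))]
  refine integral_congr_ae (Eventually.of_forall fun u => ?_)
  simp only [gk]
  rw [map_mul, conj_ofReal, Ph_even, ← Complex.exp_conj]
  congr 2
  simp

theorem sym_zero {lam : ℝ} {z : ℂ} (h : LL gk lam z = 0) : LL gk lam (-conj z) = 0 := by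
  rw [sym, h, map_zero]

/-- a zero free region on the right is symmetric -/
theorem free_sym {lam a b c t : ℝ}
    (h : ∀ z : ℂ, a ≤ z.re → z.re ≤ b → |z.im - t| ≤ c → LL gk lam z ≠ 0) (z : ℂ)
    (h1 : a ≤ |z.re|) (h2 : |z.re| ≤ b) (h3 : |z.im - t| ≤ c) : LL gk lam z ≠ 0 := by
  rcases le_total 0 z.re with h0 | h0
  · rw [abs_of_nonneg h0] at h1 h2
    exact h z h1 h2 h3
  · rw [abs_of_nonpos h0] at h1 h2
    intro hz
    exact h (-conj z) (by simpa using h1) (by simpa using h2) (by simpa using h3) (sym_zero hz)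

theorem out (h1 : S_ZF1) (h2 : S_ZF2) (h3 : S_CNTg) (h4 : S_REGX) (h5 : S_REG) (h6 : S_INTQ) :
    S_OUT := by
  intro ε R0 hε hε1 hR0
  obtain ⟨κz, δz, hκz, hδz, hz⟩ := h1 ε R0 hε hε1 hR0
  obtain ⟨κa, C1, Aa, Ta, δa, hκa, hC1, hAa, hTa, hδa, hfree⟩ := h2 R0 hR0
  obtain ⟨κb, Cc, Ac, Tc, δc, hκb, hCc, hAc, hTc, hδc, hcnt⟩ := h3 C1 hC1
  set κc : ℝ := min κa κb with hκcdef
  have hκc : 0 < κc := lt_min hκa hκb
  obtain ⟨CX, cX, TX, hCX, hcX, hTX, hregx⟩ := h4 64 κc (by norm_num) hκc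
  set κ : ℝ := min 1 κz with hκ
  have hκp : 0 < κ := lt_min one_pos hκz
  have hκ1 : κ ≤ 1 := min_le_left _ _
  have hκ2 : κ ≤ κz := min_le_right _ _
  set ε0 : ℝ := ε / (Cc + 1) with hε0
  have hε0p : 0 < ε0 := by positivity
  have hCε : Cc * ε0 ≤ ε := by
    rw [hε0, mul_div_assoc', div_le_iff₀ (by positivity)]
    nlinarith
  obtain ⟨A1, Tr, hA1, hTr, hreg⟩ := h5 (1 / κ) κ ε0 (by
    rw [le_div_iff₀ hκp]; linarith) hκp hε0p
  obtain ⟨Az, Tz, hAz, hTz, hz⟩ := hz κ hκp hκ2 A1 hA1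
  -- the exponentially small tail
  set q0 : ℝ := cX / 64 with hq0
  have hq0p : 0 < q0 := by positivity
  set E : ℝ := Cc * CX / 32 * (16 / q0 ^ 2) with hE
  have hEp : 0 < E := by positivity
  obtain ⟨Ae, hAe⟩ : ∃ Ae : ℝ, ∀ A : ℝ, Ae ≤ A → E * Real.exp (-(cX * A / 64 / 2)) ≤ ε := by
    refine ⟨128 / cX * Real.log (E / ε), fun A hA => ?_⟩
    have e1 : Real.log (E / ε) ≤ cX * A / 64 / 2 := by
      have e2 : cX / 128 * (128 / cX * Real.log (E / ε)) ≤ cX / 128 * A :=
        mul_le_mul_of_nonneg_left hA (by positivity)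
      have e3 : cX / 128 * (128 / cX * Real.log (E / ε)) = Real.log (E / ε) := by
        field_simp
      linarith
    have e4 : E / ε ≤ Real.exp (cX * A / 64 / 2) := by
      rw [← Real.exp_log (show 0 < E / ε by positivity)]
      exact Real.exp_le_exp.2 e1
    rw [Real.exp_neg, ← div_eq_mul_inv, div_le_iff₀ (Real.exp_pos _)]
    rw [div_le_iff₀ (by positivity)] at e4
    linarith
  refine ⟨max (max Ac Az) (max Aa Ae), min 1 (min δc (min δz δa)),
    max (max (max Tc Tz) (max Ta Tr)) (max TX (2 / ε0)),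
    hAc.trans ((le_max_left _ _).trans (le_max_left _ _)), by positivity,
    hTc.trans (((le_max_left _ _).trans (le_max_left _ _)).trans (le_max_left _ _)), ?_⟩
  intro T μ hT hμ hA hδ S hS
  have hTTc : Tc ≤ T := (((le_max_left _ _).trans (le_max_left _ _)).trans (le_max_left _ _)).trans hT
  have hTTz : Tz ≤ T := (((le_max_right _ _).trans (le_max_left _ _)).trans (le_max_left _ _)).trans hT
  have hTTa : Ta ≤ T := (((le_max_left _ _).trans (le_max_right _ _)).trans (le_max_left _ _)).trans hT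
  have hTTr : Tr ≤ T := (((le_max_right _ _).trans (le_max_right _ _)).trans (le_max_left _ _)).trans hT
  have hTTX : TX ≤ T := ((le_max_left _ _).trans (le_max_right _ _)).trans hT
  have hTρ : 2 / ε0 ≤ T := ((le_max_right _ _).trans (le_max_right _ _)).trans hT
  have hT10 : 10 ≤ T := hTc.trans hTTc
  have hTp : 0 < T := by linarith
  have hL : 0 < Real.log T := Real.log_pos (by linarith)
  set L := Real.log T with hLdef
  set A : ℝ := μ * L ^ 2 with hAdef
  set Δ : ℝ := μ * L with hΔ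
  have hAc' : Ac ≤ A := ((le_max_left _ _).trans (le_max_left _ _)).trans hA
  have hAz' : Az ≤ A := ((le_max_right _ _).trans (le_max_left _ _)).trans hA
  have hAa' : Aa ≤ A := ((le_max_left _ _).trans (le_max_right _ _)).trans hA
  have hAe' : Ae ≤ A := ((le_max_right _ _).trans (le_max_right _ _)).trans hA
  have hΔ1 : Δ ≤ 1 := hδ.trans (min_le_left _ _)
  have hΔc : Δ ≤ δc := (hδ.trans (min_le_right _ _)).trans (min_le_left _ _)
  have hΔz : Δ ≤ δz := ((hδ.trans (min_le_right _ _)).trans (min_le_right _ _)).trans (min_le_left _ _)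
  have hΔa : Δ ≤ δa := ((hδ.trans (min_le_right _ _)).trans (min_le_right _ _)).trans (min_le_right _ _)
  have hAp : 0 < A := by positivity
  have hΔp : 0 < Δ := by positivity
  have hΔL : Δ * L = A := by rw [hΔ, hAdef]; ring
  have hρ2T : 2 ≤ ε0 * T := by
    rw [div_le_iff₀ (by positivity)] at hTρ
    linarith
  set m : ℂ → ℝ := fun z => (analyticOrderNatAt (LL gk (-μ)) z : ℝ) with hm
  have hm0 : ∀ z, 0 ≤ m z := fun z => Nat.cast_nonneg _
  -- the scales
  set y : ℕ → ℝ := fun k => 2 ^ k * Δ / 64 with hy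
  have hyp : ∀ k, 0 < y k := fun k => by rw [hy]; positivity
  have hyge : ∀ k, Δ / 64 ≤ y k := by
    intro k
    have e1 : (1 : ℝ) ≤ 2 ^ k := one_le_pow₀ (by norm_num)
    have e2 : 1 * Δ ≤ 2 ^ k * Δ := mul_le_mul_of_nonneg_right e1 hΔp.le
    simp only [hy]
    linarith
  obtain ⟨K0, hK0⟩ : ∃ K0 : ℕ, 2 ≤ y K0 := by
    obtain ⟨k, hk⟩ := pow_unbounded_of_one_lt (128 / Δ) (one_lt_two (α := ℝ))
    refine ⟨k, ?_⟩
    rw [div_lt_iff₀ hΔp] at hk
    simp only [hy]
    linarith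
  have hK00 : K0 ≠ 0 := by
    intro h0
    rw [h0] at hK0
    simp only [hy, pow_zero] at hK0
    linarith
  obtain ⟨K, rfl⟩ : ∃ K, K0 = K + 1 := ⟨K0 - 1, by omega⟩
  have hfil : ∀ t : ℝ, ∀ z ∈ S.filter (fun z : ℂ => |z.im - t| ≤ Δ),
      z ∈ S ∧ |z.im - t| ≤ Δ := fun t z hz' => Finset.mem_filter.1 hz'
  -- the local count at the scale `Y`
  have hN : ∀ t ∈ Icc (T / 2) (4 * T), ∀ Y : ℝ, Δ / 64 ≤ Y → Y ≤ 2 → Reg1 t Y 64 κc L →
      ∑ z ∈ S with |z.im - t| ≤ Δ, m z ≤ Cc * (Y * L) := by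
    intro t ht Y hY1 hY2 hr
    have hra : Reg1 t Y 64 κa L := reg_mono hL.le (min_le_left _ _) hr
    have hrb : Reg1 t Y 64 κb L := reg_mono hL.le (min_le_right _ _) hr
    refine hcnt T t Y μ hTTc ht.1 ht.2 (by linarith) hY2 hrb hμ hAc' hΔc (by linarith)
      (S.filter fun z : ℂ => |z.im - t| ≤ Δ) ?_
    intro z hz'
    obtain ⟨g1, g2⟩ := hfil t z hz'
    obtain ⟨g3, g4, g5, -, -⟩ := hS z g1
    refine ⟨g3, g2, ?_⟩
    by_contra hcon
    exact free_sym (hfree T t Y μ hTTa ht.1 ht.2 (by linarith) hY2 hra hμ hAa' hΔa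
      (by linarith)) z (not_le.1 hcon).le g5 g2 g3
  have hN2 : ∀ t ∈ Icc (T / 2) (4 * T), ∀ k : ℕ, (2 ≤ y k ∨ Reg1 t (y k) 64 κc L) →
      ∑ z ∈ S with |z.im - t| ≤ Δ, m z ≤ Cc * (y k * L) := by
    intro t ht k hk
    rcases le_or_gt 2 (y k) with e | e
    · have e1 := hN t ht 2 (by linarith) le_rfl ((hregx T hTTX).2 2 le_rfl t ht)
      refine e1.trans ?_
      exact mul_le_mul_of_nonneg_left (mul_le_mul_of_nonneg_right e hL.le) hCc.le
    · exact hN t ht (y k) (hyge k) e.le (hk.resolve_left (not_le.2 e))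
  -- the bad sets
  set X : ℕ → Set ℝ := fun k => {t : ℝ | t ∈ Icc (T / 2) (4 * T) ∧ ¬ Reg1 t (y k) 64 κc L}
    with hX
  set B1 : Set ℝ := {t : ℝ | t ∈ Icc T (2 * T) ∧ ¬ (CF t (A1 / L) (1 / κ) ∧
      ∀ z ∈ Kt t (A1 / L) 4 (1 / κ), ‖P z - (L / 2 : ℝ)‖ ≤ κ * L)} with hB1
  set B : Set ℝ := (Icc (T - Δ) T ∪ Icc (2 * T) (2 * T + Δ)) ∪ B1 with hB
  have hvB : volume B ≤ ENNReal.ofReal (2 * Δ + ε0 * T) := by
    have e1 : volume (Icc (T - Δ) T) ≤ ENNReal.ofReal Δ := by
      rw [Real.volume_Icc]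
      exact ENNReal.ofReal_le_ofReal (by linarith)
    have e2 : volume (Icc (2 * T) (2 * T + Δ)) ≤ ENNReal.ofReal Δ := by
      rw [Real.volume_Icc]
      exact ENNReal.ofReal_le_ofReal (by linarith)
    have e3 : volume B1 ≤ ENNReal.ofReal (ε0 * T) := hreg T hTTr
    have e5 : ENNReal.ofReal (2 * Δ + ε0 * T) = (ENNReal.ofReal Δ + ENNReal.ofReal Δ) +
        ENNReal.ofReal (ε0 * T) := by
      rw [← ENNReal.ofReal_add hΔp.le hΔp.le, ← ENNReal.ofReal_add (by positivity) (by positivity)]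
      congr 1
      ring
    rw [e5]
    refine (measure_union_le _ _).trans (add_le_add ?_ e3)
    exact (measure_union_le _ _).trans (add_le_add e1 e2)
  have hicc : ∀ t ∈ Icc (T - Δ) (2 * T + Δ), t ∈ Icc (T / 2) (4 * T) := by
    intro t ht
    exact ⟨by linarith [ht.1], by linarith [ht.2]⟩
  -- the good points
  have hgood : ∀ t ∈ Icc (T - Δ) (2 * T + Δ), t ∉ B →
      ∑ z ∈ S with |z.im - t| ≤ Δ, m z ≤ 0 := by
    intro t ht hnB
    have g1 : T ≤ t := by
      by_contra hc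
      exact hnB (Or.inl (Or.inl ⟨ht.1, (not_le.1 hc).le⟩))
    have g2 : t ≤ 2 * T := by
      by_contra hc
      exact hnB (Or.inl (Or.inr ⟨(not_le.1 hc).le, ht.2⟩))
    have g3 : Rg T t A1 (1 / κ) κ := by
      by_contra hc
      exact hnB (Or.inr ⟨⟨g1, g2⟩, fun hcc => hc ⟨hcc.1, hcc.2⟩⟩)
    refine (Finset.sum_eq_zero fun z hz' => ?_).le
    exfalso
    obtain ⟨g5, g6⟩ := hfil t z hz'
    obtain ⟨g7, g8, g9, -, -⟩ := hS z g5
    exact free_sym (hz T t μ hTTz g1 g2 g3 hμ hAz' hΔz) z g8 g9 g6 g7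
  -- integration
  have hfin := h6 ℂ S m (fun z => z.im) (K + 1 + 2)
    (lev (Icc (T - Δ) (2 * T + Δ)) B X)
    (lev 0 (Cc * (y 0 * L)) (fun k => Cc * (y (k + 1) * L)))
    (lev (T + 2 * Δ) (2 * Δ + ε0 * T) (fun k => CX * T * Real.exp (-(cX * y k * L))))
    (T - Δ) (2 * T + Δ) Δ (by linarith) hΔp (by
      intro z hz'
      obtain ⟨-, -, -, g1, g2⟩ := hS z hz'
      exact ⟨hm0 z, by linarith, by linarith⟩) (by
      intro j
      refine ⟨lev_nonneg le_rfl (mul_nonneg hCc.le (mul_nonneg (hyp 0).le hL.le))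
        (fun k => mul_nonneg hCc.le (mul_nonneg (hyp _).le hL.le)) j,
        lev_nonneg (by linarith) (by positivity) (fun k => by positivity) j⟩) (by
      intro j _
      match j with
      | 0 =>
        change volume (Icc (T - Δ) (2 * T + Δ)) ≤ ENNReal.ofReal (T + 2 * Δ)
        rw [Real.volume_Icc]
        exact ENNReal.ofReal_le_ofReal (by linarith)
      | 1 => exact hvB
      | (k + 2) => exact (hregx T hTTX).1 (y k) (hyp k)) (by
      intro t ht hi
      exact absurd ht (hi 0 (Finset.mem_range.2 (by omega)))) (by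
      intro t ht j0 _ _
      have ht' := hicc t ht
      by_cases hex : ∃ k < K + 1, t ∈ X k
      · obtain ⟨k, hk, hkX, hk'⟩ := largest (K + 1) (fun k => t ∈ X k) hex
        refine ⟨k + 2, Finset.mem_range.2 (by omega), hkX, ?_⟩
        refine hN2 t ht' (k + 1) ?_
        rcases hk' with e | e
        · left
          rw [e]
          exact hK0
        · right
          by_contra hc
          exact e ⟨ht', hc⟩
      · have hr : Reg1 t (y 0) 64 κc L := by
          by_contra hc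
          exact hex ⟨0, by omega, ht', hc⟩
        by_cases hBt : t ∈ B
        · exact ⟨1, Finset.mem_range.2 (by omega), hBt, hN2 t ht' 0 (Or.inr hr)⟩
        · exact ⟨0, Finset.mem_range.2 (by omega), ht, hgood t ht hBt⟩)
  rw [sum_lev] at hfin
  -- the sum over the scales
  have hgeo := geo (q := cX * A / 64) hq0p (by
    rw [hq0]
    have e1 : cX * 1 ≤ cX * A := mul_le_mul_of_nonneg_left (hAc.trans hAc') hcX.le
    linarith) (K + 1)
  have hsum : ∑ k ∈ Finset.range (K + 1),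
      Cc * (y (k + 1) * L) * (CX * T * Real.exp (-(cX * y k * L))) =
      T * A * ((Cc * CX / 32) *
        ∑ k ∈ Finset.range (K + 1), (2 : ℝ) ^ k * Real.exp (-(2 ^ k * (cX * A / 64)))) := by
    rw [Finset.mul_sum, Finset.mul_sum]
    refine Finset.sum_congr rfl fun k _ => ?_
    have e1 : cX * y k * L = 2 ^ k * (cX * A / 64) := by
      simp only [hy]
      rw [← hΔL]
      ring
    have e2 : y (k + 1) * L = 2 ^ k * A / 32 := by
      simp only [hy, pow_succ]
      rw [← hΔL]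
      ring
    rw [e1, e2]
    ring
  have htail : ∑ k ∈ Finset.range (K + 1),
      Cc * (y (k + 1) * L) * (CX * T * Real.exp (-(cX * y k * L))) ≤ T * A * ε := by
    rw [hsum]
    refine mul_le_mul_of_nonneg_left ?_ (by positivity)
    calc (Cc * CX / 32) *
        ∑ k ∈ Finset.range (K + 1), (2 : ℝ) ^ k * Real.exp (-(2 ^ k * (cX * A / 64)))
        ≤ (Cc * CX / 32) * (16 / q0 ^ 2 * Real.exp (-(cX * A / 64 / 2))) :=
          mul_le_mul_of_nonneg_left hgeo (by positivity)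
      _ = E * Real.exp (-(cX * A / 64 / 2)) := by rw [hE]; ring
      _ ≤ ε := hAe A hAe'
  have hy0 : y 0 * L = A / 64 := by
    simp only [hy, pow_zero]
    rw [← hΔL]
    ring
  have hh1 : 2 * Δ ≤ ε0 * T := by linarith
  have hlev1 : Cc * (y 0 * L) * (2 * Δ + ε0 * T) ≤ T * A * ε := by
    rw [hy0]
    have e1 : 2 * Δ + ε0 * T ≤ 2 * (ε0 * T) := by linarith
    have e2 : Cc * (A / 64) * (2 * Δ + ε0 * T) ≤ Cc * (A / 64) * (2 * (ε0 * T)) :=
      mul_le_mul_of_nonneg_left e1 (by positivity)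
    have e3 : Cc * (A / 64) * (2 * (ε0 * T)) = 1 / 32 * (T * A * (Cc * ε0)) := by ring
    have e4 : T * A * (Cc * ε0) ≤ T * A * ε := mul_le_mul_of_nonneg_left hCε (by positivity)
    have e5 : 0 ≤ T * A * ε := by positivity
    linarith
  have htot : 2 * Δ * ∑ z ∈ S, m z ≤ 2 * (T * A * ε) := by
    linarith
  have e1 : 2 * (T * A * ε) = 2 * Δ * (ε * (T * L)) := by
    rw [← hΔL]
    ring
  rw [e1] at htot
  exact le_of_mul_le_mul_left htot (by positivity)

end Pool.Agent.H181.HE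

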